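import Pool.Agent.H242.GX.Stm6

/-!
# Project GU: the normal derivative (GU-NOR)
-/

set_option autoImplicit false
set_option maxHeartbeats 4000000

open Set Filter Topology
open scoped ContDiff

namespace Pool.Agent.H394.GU

open Pool.Agent.H242.GX

theorem gu_NOR : S_NOR := by
  intro p X U Y H y₀ hF hPul θ
  obtain ⟨hy₀, -, hpull, -⟩ := hPul
  have hg : Psi p θ 0 = gam p θ := by
    simp [Psi]
  have hmem : gam p θ ∈ U := by
    rw [← hg]
    exact (hpull θ 0 (by rw [abs_zero]; exact hy₀)).1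
  have hYd : DifferentiableAt ℝ Y (gam p θ) :=
    ((hF.smooth.contDiffAt (hF.isOpen.mem_nhds hmem)).differentiableAt (by simp))
  have hPd : HasDerivAt (fun y : ℝ => Psi p θ y) (nu θ) 0 := by
    have h1 : HasDerivAt (fun y : ℝ => gam p θ + y • nu θ) ((1 : ℝ) • nu θ) 0 :=
      ((hasDerivAt_id (0 : ℝ)).smul_const (nu θ)).const_add (gam p θ)
    rw [one_smul] at h1
    exact h1
  have hcomp : HasDerivAt (fun y : ℝ => Y (Psi p θ y)) (fderiv ℝ Y (gam p θ) (nu θ)) 0 := by
    have h1 : HasFDerivAt Y (fderiv ℝ Y (gam p θ)) (Psi p θ 0) := by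
      rw [hg]
      exact hYd.hasFDerivAt
    exact h1.comp_hasDerivAt (0 : ℝ) hPd
  rw [← hcomp.deriv]
  refine Filter.EventuallyEq.deriv_eq ?_
  have := Metric.ball_mem_nhds (0 : ℝ) hy₀
  filter_upwards [this] with y hy
  rw [Metric.mem_ball, Real.dist_eq, sub_zero] at hy
  exact ((hpull θ y hy).2).symm

end Pool.Agent.H394.GU
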